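import Pool.Agent.G02.Stmts

/-!
# Squad G02, row GDS: good parameters from recipe S (helper97)
-/

set_option autoImplicit false

namespace Pool.Agent.G02.H97

open Pool.Agent.G02

/-- common part -/
theorem core {m : ℕ} (hm : m % 2 = 1) {k : ℤ} {p q r : ℕ} (h : RS m k p q r)
    (hT : Tr ((-(4 * k * p ^ 2 * q * r) : ℤ) : ℚ) ((2 * k ^ 2 * p ^ 3 * q ^ 3 * r ^ 2 : ℤ) : ℚ))
    (hS : SclStmt) : Gd (k * (8 * p / q) * (8 * p / q - 4)) (8 * p / q) := by
  have hp0 : (0 : ℚ) < p := by exact_mod_cast h.pp.pos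
  have hq0 : (0 : ℚ) < q := by exact_mod_cast h.pq.pos
  have hr0 : (0 : ℚ) < r := by exact_mod_cast h.pr.pos
  have hr : (r : ℚ) = q - 2 * p := by exact_mod_cast h.hr
  have hk0 : (k : ℚ) ≠ 0 := by exact_mod_cast h.sqf.ne_zero
  have ht4 : (8 * p / q : ℚ) - 4 = -(4 * r / q) := by
    rw [hr]
    field_simp
    ring
  have hneg : (8 * p / q : ℚ) - 4 < 0 := by
    rw [ht4]
    have : (0 : ℚ) < 4 * r / q := by positivity
    linarith
  have hpos : (0 : ℚ) < 8 * p / q := by positivity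
  have hp2 : p ≠ 2 := by
    intro h2
    have := h.mp
    rw [h2] at this
    omega
  have hpq : p ≠ q := by
    intro h2
    have h3 := h.hr
    have h4 := h.pr.pos
    have h5 := h.pp.pos
    omega
  refine ⟨?_, ?_, ?_, ?_⟩
  · exact mul_ne_zero (mul_ne_zero hk0 hpos.ne') hneg.ne
  · rintro ⟨z, hz⟩
    have h1 : IsSquare ((8 * p * q : ℕ) : ℚ) := by
      refine ⟨z * q, ?_⟩
      have e : (8 * p / q : ℚ) * q * q = z * z * q * q := by rw [hz]
      have e2 : (8 * p / q : ℚ) * q = 8 * p := by field_simp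
      push_cast
      rw [e2] at e
      linear_combination e
    rw [Rat.isSquare_natCast_iff] at h1
    obtain ⟨w, hw⟩ := h1
    have h2 : p ∣ w * w := by
      rw [← hw]
      exact ⟨8 * q, by ring⟩
    have h3 : p ∣ w := by
      rcases (h.pp.dvd_mul).1 h2 with h | h <;> exact h
    obtain ⟨s, rfl⟩ := h3
    have h4 : 8 * q = p * (s * s) := by
      have h5 : p * (8 * q) = p * (p * (s * s)) := by
        calc p * (8 * q) = 8 * p * q := by ring
          _ = p * s * (p * s) := hw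
          _ = p * (p * (s * s)) := by ring
      exact Nat.eq_of_mul_eq_mul_left h.pp.pos h5
    have h6 : p ∣ 8 * q := ⟨s * s, h4⟩
    rcases (h.pp.dvd_mul).1 h6 with h7 | h7
    · have h8 : p ∣ 2 ^ 3 := h7
      exact hp2 ((Nat.prime_dvd_prime_iff_eq h.pp Nat.prime_two).1 (h.pp.dvd_of_dvd_pow h8))
    · exact hpq ((Nat.prime_dvd_prime_iff_eq h.pp h.pq).1 h7)
  · intro hz
    have h1 := hz.nonneg
    have h2 : (8 * p / q : ℚ) * (8 * p / q - 4) < 0 := mul_neg_of_pos_of_neg hpos hneg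
    linarith
  · have hm0 : ((q : ℚ) ^ 2 / 8) ≠ 0 := by positivity
    rw [← hS _ _ ((q : ℚ) ^ 2 / 8) hm0]
    have e1 : ((k : ℚ) * (8 * p / q) * (8 * p / q - 4)) * (8 * p / q) * ((q : ℚ) ^ 2 / 8) ^ 2 =
        ((-(4 * k * p ^ 2 * q * r) : ℤ) : ℚ) := by
      rw [ht4]
      push_cast
      field_simp
    have e2 : ((k : ℚ) * (8 * p / q) * (8 * p / q - 4)) ^ 2 * (8 * p / q) *
        ((q : ℚ) ^ 2 / 8) ^ 4 = ((2 * k ^ 2 * p ^ 3 * q ^ 3 * r ^ 2 : ℤ) : ℚ) := by
      rw [ht4]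
      push_cast
      field_simp
      ring
    rw [e1, e2]
    exact hT

/-- GDS -/
theorem gds (trs : TrsStmt) (scl : SclStmt) : GdsStmt :=
  ⟨fun k p q r _ h ho hk hl => core (by norm_num) h (trs.1 k p q r h ho hk hl) scl,
    fun k p q r _ h ho hk hl => core (by norm_num) h (trs.2 k p q r h ho hk hl) scl⟩

end Pool.Agent.G02.H97
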